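import Pool.Agent.H992.SF.GDefs

/-!
# Subsequences with convergent ratios
-/

set_option autoImplicit false

open Filter Topology
open scoped ENNReal

namespace Pool.Agent.H264.SG

open Pool.Agent.H992.SF

theorem sub : S_SUB := by
  intro d lam ns hns
  obtain ⟨c, φ, hφ, hc⟩ := CompactSpace.tendsto_subseq
    (fun (n : ℕ) (i j : Fin d) => ENNReal.ofReal (lam j (ns n) / lam i (ns n)))
  refine ⟨φ, hns.comp hφ.tendsto_atTop, fun i j => ⟨c i j, ?_⟩⟩
  exact tendsto_pi_nhds.1 (tendsto_pi_nhds.1 hc i) j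

end Pool.Agent.H264.SG
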